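import Pool.Agent.H655.SB.Pre

/-!
The codes form a standard Borel space.
-/

open Set Filter Topology
open scoped MeasureTheory

namespace Pool.Agent.H655.SB

open Pool.Agent.H655.CM

variable {E : Type} [NormedAddCommGroup E] [NormedSpace ℝ E] [FiniteDimensional ℝ E]

local instance : ProperSpace E := FiniteDimensional.proper_real E

attribute [local instance] measE borelE

theorem pm_W (p : PreMap E) : (W (fun b => (cb b : Set E) ⊆ p.V) : Set E) = p.V := toT_W p

theorem pm_mem_iff (p : PreMap E) (x : E) :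
    x ∈ p.V ↔ ∃ b : ℕ × ℕ × ℕ, (cb b : Set E) ⊆ p.V ∧ x ∈ (ob b : Set E) := by
  conv_lhs => rw [← pm_W p]
  rfl

theorem cb_meas (b : ℕ × ℕ × ℕ) : Measurable (fun p : PreMap E => (cb b : Set E) ⊆ p.V) :=
  measurableSet_setOfPred.1 (pm_compact (cb_compact b))

/-- Joint measurability of membership. -/
theorem mem_joint : Measurable (fun q : PreMap E × E => q.2 ∈ q.1.V) := by
  have h1 : (fun q : PreMap E × E => q.2 ∈ q.1.V) = fun q : PreMap E × E =>
      ∃ b : ℕ × ℕ × ℕ, (cb b : Set E) ⊆ q.1.V ∧ q.2 ∈ (ob b : Set E) := by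
    funext q
    exact propext (pm_mem_iff q.1 q.2)
  rw [h1]
  refine Measurable.exists fun b => ((cb_meas b).comp measurable_fst).and ?_
  exact measurableSet_setOfPred.1 ((ob_open b).measurableSet.preimage measurable_snd)

open Classical in
/-- The first index of a point of the dense sequence close to the given point. -/
noncomputable def near (m : ℕ) (x : E) : ℕ :=
  Nat.find (p := fun n => dist (D E n) x < 1 / ((m : ℝ) + 1)) (by
    have hpos : (0 : ℝ) < 1 / ((m : ℝ) + 1) := by positivity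
    obtain ⟨n, hn⟩ := (TopologicalSpace.denseRange_denseSeq E).exists_dist_lt x hpos
    exact ⟨n, by rw [dist_comm]; exact hn⟩)

theorem near_spec (m : ℕ) (x : E) : dist (D E (near m x)) x < 1 / ((m : ℝ) + 1) := by
  classical
  unfold near
  exact Nat.find_spec (p := fun n => dist (D E n) x < 1 / ((m : ℝ) + 1)) _

theorem near_meas (m : ℕ) : Measurable (near (E := E) m) := by
  classical
  refine measurable_find _ ?_
  intro k
  exact measurableSet_lt (by fun_prop) measurable_const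

theorem near_lim (x : E) : Tendsto (fun m => D E (near m x)) atTop (𝓝 x) := by
  rw [tendsto_iff_dist_tendsto_zero]
  refine squeeze_zero (fun _ => dist_nonneg) (fun m => (near_spec m x).le) ?_
  exact tendsto_one_div_add_atTop_nhds_zero_nat

/-- Joint measurability of the evaluation. -/
theorem ev_joint : Measurable (fun q : PreMap E × E => q.1.φ q.2) := by
  classical
  let f : ℕ → PreMap E × E → E := fun m q => if q.2 ∈ q.1.V then q.1.φ (D E (near m q.2)) else 0
  have hf : ∀ m, Measurable (f m) := by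
    intro m
    refine Measurable.ite (measurableSet_setOfPred.2 mem_joint) ?_ measurable_const
    have h1 : Measurable (fun q : PreMap E × ℕ => q.1.φ (D E q.2)) :=
      measurable_from_prod_countable_left fun n => pm_phi (D E n)
    exact h1.comp (measurable_fst.prodMk ((near_meas m).comp measurable_snd))
  refine measurable_of_tendsto_metrizable hf ?_
  rw [tendsto_pi_nhds]
  rintro ⟨p, x⟩
  by_cases hx : x ∈ p.V
  · have h2 : (fun m => f m (p, x)) = fun m => p.φ (D E (near m x)) := by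
      funext m
      exact if_pos hx
    rw [h2]
    exact (p.continuousAt hx).tendsto.comp (near_lim x)
  · have h1 : p.φ x = 0 := p.off x hx
    have h2 : (fun m => f m (p, x)) = fun m => (0 : E) := by
      funext m
      exact if_neg hx
    rw [h2]
    show Tendsto _ _ (𝓝 (p.φ x))
    rw [h1]
    exact tendsto_const_nhds

/-- The axioms of codes. -/
structure Ax (p : ℕ → ℕ → PreMap E) : Prop where
  sub : ∀ i j, (p i j).V ⊆ (p i i).V
  refl : ∀ i, ∀ x ∈ (p i i).V, (p i i).φ x = x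
  cocycle : ∀ i j k, ∀ x ∈ (p i j).V, x ∈ (p i k).V →
    (p i j).φ x ∈ (p j k).V ∧ (p j k).φ ((p i j).φ x) = (p i k).φ x
  haus : ∀ i j, ∀ x ∈ (p i i).V, ∀ y ∈ (p j j).V, ¬ (x ∈ (p i j).V ∧ (p i j).φ x = y) →
    ∀ᶠ q : E × E in 𝓝 (x, y), ¬ (q.1 ∈ (p i j).V ∧ (p i j).φ q.1 = q.2)

/-- A countable form of the inclusion of open sets. -/
theorem sub_iff (p q : PreMap E) :
    p.V ⊆ q.V ↔ ∀ b : ℕ × ℕ × ℕ, (cb b : Set E) ⊆ p.V → (cb b : Set E) ⊆ q.V := by
  constructor
  · intro h b hb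
    exact hb.trans h
  · intro h x hx
    obtain ⟨b, hb, hxb⟩ := (pm_mem_iff p x).1 hx
    exact h b hb (ob_sub_cb b hxb)

/-- Equalities of continuous maps can be checked on the dense sequence. -/
theorem eq_of_dense {U : Set E} (hU : IsOpen U) {f g : E → E} (hf : ∀ x ∈ U, ContinuousAt f x)
    (hg : ∀ x ∈ U, ContinuousAt g x) (h : ∀ n, D E n ∈ U → f (D E n) = g (D E n)) :
    ∀ x ∈ U, f x = g x := by
  intro x hx
  have l1 : Tendsto (fun n => f (D E n)) (tr x) (𝓝 (f x)) := (hf x hx).tendsto.comp (tendsto_D x)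
  have l2 : Tendsto (fun n => g (D E n)) (tr x) (𝓝 (g x)) := (hg x hx).tendsto.comp (tendsto_D x)
  refine tendsto_nhds_unique l1 (l2.congr' ?_)
  filter_upwards [(tendsto_D x).eventually (hU.mem_nhds hx)] with n hn
  exact (h n hn).symm

theorem refl_iff (p : PreMap E) :
    (∀ x ∈ p.V, p.φ x = x) ↔ ∀ n, D E n ∈ p.V → p.φ (D E n) = D E n := by
  constructor
  · intro h n hn
    exact h _ hn
  · intro h
    exact eq_of_dense p.isOpen (fun x hx => (p.continuousAt hx))
      (fun x _ => continuousAt_id) h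

/-- The union of the closed balls of a list. -/
def UL (L : List (ℕ × ℕ × ℕ)) : Set E := {x | ∃ b ∈ L, x ∈ (cb b : Set E)}

theorem UL_closed (L : List (ℕ × ℕ × ℕ)) : IsClosed (UL L : Set E) := by
  induction L with
  | nil =>
    have : (UL [] : Set E) = ∅ := by
      ext x
      simp [UL]
    rw [this]
    exact isClosed_empty
  | cons a L ih =>
    have : (UL (a :: L) : Set E) = cb a ∪ UL L := by
      ext x
      simp [UL]
    rw [this]
    exact (cb_compact a).isClosed.union ih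

theorem UL_sub {p : PreMap E} {L : List (ℕ × ℕ × ℕ)} (h : ∀ b ∈ L, (cb b : Set E) ⊆ p.V) :
    (UL L : Set E) ⊆ p.V := by
  rintro x ⟨b, hb, hx⟩
  exact h b hb hx

theorem exists_UL {p : PreMap E} {S : Set E} (hS : IsCompact S) (h : S ⊆ p.V) :
    ∃ L : List (ℕ × ℕ × ℕ), (∀ b ∈ L, (cb b : Set E) ⊆ p.V) ∧ S ⊆ (UL L : Set E) := by
  rw [← pm_W p, compact_sub_W hS] at h
  obtain ⟨L, h1, h2⟩ := h
  refine ⟨L, h1, h2.trans ?_⟩
  rintro x ⟨b, hb, hx⟩
  exact ⟨b, hb, ob_sub_cb b hx⟩

theorem coc1_iff (p q r : PreMap E) :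
    (∀ x ∈ p.V, x ∈ q.V → p.φ x ∈ r.V) ↔
      ∀ b : ℕ × ℕ × ℕ, (cb b : Set E) ⊆ p.V → (cb b : Set E) ⊆ q.V →
        ∃ L : List (ℕ × ℕ × ℕ), (∀ b' ∈ L, (cb b' : Set E) ⊆ r.V) ∧
          ∀ n, D E n ∈ (ob b : Set E) → p.φ (D E n) ∈ (UL L : Set E) := by
  constructor
  · intro h b h1 h2
    have hc : ContinuousOn p.φ (cb b) := fun x hx =>
      (p.continuousAt (h1 hx)).continuousWithinAt
    obtain ⟨L, hL1, hL2⟩ := exists_UL (p := r) ((cb_compact b).image_of_continuousOn hc) (by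
      rintro _ ⟨x, hx, rfl⟩
      exact h x (h1 hx) (h2 hx))
    exact ⟨L, hL1, fun n hn => hL2 ⟨_, ob_sub_cb b hn, rfl⟩⟩
  · intro h x hx hx'
    obtain ⟨b, -, hxb, hb⟩ := exists_rb 0 ((p.isOpen.inter q.isOpen).mem_nhds ⟨hx, hx'⟩)
    obtain ⟨L, hL1, hL2⟩ := h b (fun y hy => (hb hy).1) (fun y hy => (hb hy).2)
    apply UL_sub hL1
    have l1 : Tendsto (fun n => p.φ (D E n)) (tr x) (𝓝 (p.φ x)) :=
      (p.continuousAt hx).tendsto.comp (tendsto_D x)
    refine (UL_closed L).mem_of_tendsto l1 ?_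
    filter_upwards [tr_ob hxb] with n hn
    exact hL2 n hn

theorem coc2_iff (p q r : PreMap E) (h0 : ∀ x ∈ p.V, x ∈ q.V → p.φ x ∈ r.V) :
    (∀ x ∈ p.V, x ∈ q.V → r.φ (p.φ x) = q.φ x) ↔
      ∀ n, D E n ∈ p.V → D E n ∈ q.V → r.φ (p.φ (D E n)) = q.φ (D E n) := by
  constructor
  · intro h n hn hn'
    exact h _ hn hn'
  · intro h x hx hx'
    refine eq_of_dense (p.isOpen.inter q.isOpen) (f := fun x => r.φ (p.φ x)) (g := q.φ) ?_ ?_ ?_ x
      ⟨hx, hx'⟩
    · rintro y ⟨hy, hy'⟩
      exact ContinuousAt.comp (f := p.φ) (g := r.φ) (r.continuousAt (h0 y hy hy'))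
        (p.continuousAt hy)
    · rintro y ⟨hy, hy'⟩
      exact q.continuousAt hy'
    · rintro n ⟨hn, hn'⟩
      exact h n hn hn'

theorem haus_iff (p q r : PreMap E) :
    (∀ x ∈ p.V, ∀ y ∈ q.V, ¬ (x ∈ r.V ∧ r.φ x = y) →
      ∀ᶠ z : E × E in 𝓝 (x, y), ¬ (z.1 ∈ r.V ∧ r.φ z.1 = z.2)) ↔
      ∀ b b' : ℕ × ℕ × ℕ, (cb b : Set E) ⊆ p.V → (cb b' : Set E) ⊆ q.V →
        ∃ L : List (ℕ × ℕ × ℕ), (∀ b' ∈ L, (cb b' : Set E) ⊆ r.V) ∧
          ∀ n, D E n ∈ (ob b : Set E) → D E n ∈ r.V → r.φ (D E n) ∈ (ob b' : Set E) →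
            D E n ∈ (UL L : Set E) := by
  constructor
  · intro h b b' h1 h2
    have hcl : IsClosed ({z : E × E | z.1 ∈ r.V ∧ r.φ z.1 = z.2} ∩
        ((cb b : Set E) ×ˢ (cb b' : Set E))) := by
      rw [← isOpen_compl_iff, isOpen_iff_mem_nhds]
      rintro ⟨x, y⟩ hz
      by_cases hbox : (x, y) ∈ (cb b : Set E) ×ˢ (cb b' : Set E)
      · have hg : ¬ (x ∈ r.V ∧ r.φ x = y) := fun hg => hz ⟨hg, hbox⟩
        filter_upwards [h x (h1 hbox.1) y (h2 hbox.2) hg] with z hz' hzz
        exact hz' hzz.1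
      · have hbc : IsClosed ((cb b : Set E) ×ˢ (cb b' : Set E)) :=
          (cb_compact b).isClosed.prod (cb_compact b').isClosed
        filter_upwards [hbc.isOpen_compl.mem_nhds hbox] with z hz' hzz
        exact hz' hzz.2
    have hco : IsCompact ({z : E × E | z.1 ∈ r.V ∧ r.φ z.1 = z.2} ∩
        ((cb b : Set E) ×ˢ (cb b' : Set E))) :=
      ((cb_compact b).prod (cb_compact b')).of_isClosed_subset hcl inter_subset_right
    obtain ⟨L, hL1, hL2⟩ := exists_UL (p := r) (hco.image continuous_fst) (by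
      rintro _ ⟨z, hz, rfl⟩
      exact hz.1.1)
    refine ⟨L, hL1, ?_⟩
    intro n hn hnr hnb
    exact hL2 ⟨(D E n, r.φ (D E n)), ⟨⟨hnr, rfl⟩, ob_sub_cb b hn, ob_sub_cb b' hnb⟩, rfl⟩
  · intro h x hx y hy hxy
    by_contra hcon
    rw [Filter.not_eventually] at hcon
    simp only [not_not] at hcon
    obtain ⟨b, -, hxb, hb⟩ := exists_rb 0 (p.isOpen.mem_nhds hx)
    obtain ⟨b', -, hyb, hb'⟩ := exists_rb 0 (q.isOpen.mem_nhds hy)
    obtain ⟨L, hL1, hL2⟩ := h b b' hb hb'
    -- points of the graph near `(x, y)` lie over the compact set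
    have key : ∀ z ∈ (ob b : Set E), z ∈ r.V → r.φ z ∈ (ob b' : Set E) → z ∈ (UL L : Set E) := by
      intro z hz hzr hzb
      refine (UL_closed L).mem_of_tendsto (tendsto_D z) ?_
      filter_upwards [tr_ob hz, (tendsto_D z).eventually (r.isOpen.mem_nhds hzr),
        ((r.continuousAt hzr).tendsto.comp (tendsto_D z)).eventually
          ((ob_open b').mem_nhds hzb)] with n n1 n2 n3
      exact hL2 n n1 n2 n3
    have hxL : x ∈ (UL L : Set E) := by
      rw [← (UL_closed L).closure_eq, mem_closure_iff_nhds]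
      intro t ht
      have e1 : ∀ᶠ z : E × E in 𝓝 (x, y), z.1 ∈ t ∧ z.1 ∈ (ob b : Set E) ∧ z.2 ∈ (ob b' : Set E) := by
        rw [nhds_prod_eq]
        filter_upwards [prod_mem_prod (inter_mem ht ((ob_open b).mem_nhds hxb))
          ((ob_open b').mem_nhds hyb)] with z hz
        exact ⟨hz.1.1, hz.1.2, hz.2⟩
      obtain ⟨z, ⟨hz1, hz2⟩, hz3⟩ := (hcon.and_eventually e1).exists
      refine ⟨z.1, hz3.1, key z.1 hz3.2.1 hz1 ?_⟩
      rw [hz2]
      exact hz3.2.2
    have hxr : x ∈ r.V := UL_sub hL1 hxL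
    have hne : r.φ x ≠ y := fun h => hxy ⟨hxr, h⟩
    have e2 : ∀ᶠ z : E × E in 𝓝 (x, y), r.φ z.1 ≠ z.2 := by
      have c1 : Tendsto (fun z : E × E => r.φ z.1) (𝓝 (x, y)) (𝓝 (r.φ x)) := by
        rw [nhds_prod_eq]
        exact (r.continuousAt hxr).tendsto.comp tendsto_fst
      have c2 : Tendsto (fun z : E × E => z.2) (𝓝 (x, y)) (𝓝 y) := by
        rw [nhds_prod_eq]
        exact tendsto_snd
      exact (c1.prodMk_nhds c2).eventually (isOpen_ne_fun continuous_fst continuous_snd |>.mem_nhds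
        (show (r.φ x, y) ∈ {w : E × E | w.1 ≠ w.2} from hne))
    obtain ⟨z, ⟨_, hz2⟩, hz3⟩ := (hcon.and_eventually e2).exists
    exact hz3 hz2

theorem ax_meas : MeasurableSet {p : ℕ → ℕ → PreMap E | Ax p} := by
  have hp : ∀ i j, Measurable (fun p : ℕ → ℕ → PreMap E => p i j) := fun i j =>
    (measurable_pi_apply j).comp (measurable_pi_apply i)
  have hb : ∀ i j b, Measurable (fun p : ℕ → ℕ → PreMap E => (cb b : Set E) ⊆ (p i j).V) :=
    fun i j b => (cb_meas b).comp (hp i j)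
  have hm : ∀ i j n, Measurable (fun p : ℕ → ℕ → PreMap E => D E n ∈ (p i j).V) := fun i j n =>
    (measurableSet_setOfPred.1 (pm_mem (D E n))).comp (hp i j)
  have hv : ∀ i j n, Measurable (fun p : ℕ → ℕ → PreMap E => (p i j).φ (D E n)) := fun i j n =>
    (pm_phi (D E n)).comp (hp i j)
  have hvS : ∀ i j n (S : Set E), MeasurableSet S →
      Measurable (fun p : ℕ → ℕ → PreMap E => (p i j).φ (D E n) ∈ S) := fun i j n S hS =>
    measurableSet_setOfPred.1 (hv i j n hS)
  have hL : ∀ i j (L : List (ℕ × ℕ × ℕ)), Measurable (fun p : ℕ → ℕ → PreMap E =>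
      ∀ b ∈ L, (cb b : Set E) ⊆ (p i j).V) := fun i j L => measurableSet_setOfPred.1
    (list_meas (A := fun b => {p : ℕ → ℕ → PreMap E | (cb b : Set E) ⊆ (p i j).V})
      (fun b => measurableSet_setOfPred.2 (hb i j b)) L)
  have hset : {p : ℕ → ℕ → PreMap E | Ax p} = {p | (∀ i j, ∀ b : ℕ × ℕ × ℕ,
      (cb b : Set E) ⊆ (p i j).V → (cb b : Set E) ⊆ (p i i).V) ∧
      (∀ i n, D E n ∈ (p i i).V → (p i i).φ (D E n) = D E n) ∧
      (∀ i j k, ∀ b : ℕ × ℕ × ℕ, (cb b : Set E) ⊆ (p i j).V → (cb b : Set E) ⊆ (p i k).V →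
        ∃ L : List (ℕ × ℕ × ℕ), (∀ b' ∈ L, (cb b' : Set E) ⊆ (p j k).V) ∧
          ∀ n, D E n ∈ (ob b : Set E) → (p i j).φ (D E n) ∈ (UL L : Set E)) ∧
      (∀ i j k n, D E n ∈ (p i j).V → D E n ∈ (p i k).V →
        (p j k).φ ((p i j).φ (D E n)) = (p i k).φ (D E n)) ∧
      (∀ i j, ∀ b b' : ℕ × ℕ × ℕ, (cb b : Set E) ⊆ (p i i).V → (cb b' : Set E) ⊆ (p j j).V →
        ∃ L : List (ℕ × ℕ × ℕ), (∀ b' ∈ L, (cb b' : Set E) ⊆ (p i j).V) ∧
          ∀ n, D E n ∈ (ob b : Set E) → D E n ∈ (p i j).V → (p i j).φ (D E n) ∈ (ob b' : Set E) →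
            D E n ∈ (UL L : Set E))} := by
    ext p
    constructor
    · intro h
      have h0 : ∀ i j k, ∀ x ∈ (p i j).V, x ∈ (p i k).V → (p i j).φ x ∈ (p j k).V :=
        fun i j k x hx hx' => (h.cocycle i j k x hx hx').1
      refine ⟨fun i j => (sub_iff _ _).1 (h.sub i j), fun i => (refl_iff _).1 (h.refl i),
        fun i j k => (coc1_iff _ _ _).1 (h0 i j k), fun i j k => (coc2_iff _ _ _ (h0 i j k)).1
          (fun x hx hx' => (h.cocycle i j k x hx hx').2), fun i j => (haus_iff _ _ _).1 (h.haus i j)⟩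
    · rintro ⟨h1, h2, h3, h4, h5⟩
      have h0 : ∀ i j k, ∀ x ∈ (p i j).V, x ∈ (p i k).V → (p i j).φ x ∈ (p j k).V :=
        fun i j k => (coc1_iff _ _ _).2 (h3 i j k)
      exact ⟨fun i j => (sub_iff _ _).2 (h1 i j), fun i => (refl_iff _).2 (h2 i),
        fun i j k x hx hx' => ⟨h0 i j k x hx hx', (coc2_iff _ _ _ (h0 i j k)).2 (h4 i j k) x hx hx'⟩,
        fun i j => (haus_iff _ _ _).2 (h5 i j)⟩
  rw [hset]
  refine measurableSet_setOfPred.2 ?_
  refine Measurable.and ?_ (Measurable.and ?_ (Measurable.and ?_ (Measurable.and ?_ ?_)))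
  · exact Measurable.forall fun i => Measurable.forall fun j => Measurable.forall fun b =>
      (hb i j b).imp (hb i i b)
  · exact Measurable.forall fun i => Measurable.forall fun n =>
      (hm i i n).imp ((hv i i n).eq_const _)
  · exact Measurable.forall fun i => Measurable.forall fun j => Measurable.forall fun k =>
      Measurable.forall fun b => (hb i j b).imp ((hb i k b).imp (Measurable.exists fun L =>
        (hL j k L).and (Measurable.forall fun n => Measurable.imp measurable_const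
          (hvS i j n _ (UL_closed L).measurableSet))))
  · refine Measurable.forall fun i => Measurable.forall fun j => Measurable.forall fun k =>
      Measurable.forall fun n => (hm i j n).imp ((hm i k n).imp ?_)
    have h1 : Measurable (fun p : ℕ → ℕ → PreMap E => (p j k).φ ((p i j).φ (D E n))) :=
      ev_joint.comp ((hp j k).prodMk (hv i j n))
    exact measurableSet_setOfPred.1 (measurableSet_eq_fun h1 (hv i k n))
  · exact Measurable.forall fun i => Measurable.forall fun j => Measurable.forall fun b =>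
      Measurable.forall fun b' => (hb i i b).imp ((hb j j b').imp (Measurable.exists fun L =>
        (hL i j L).and (Measurable.forall fun n => Measurable.imp measurable_const
          ((hm i j n).imp ((hvS i j n _ (ob_open b').measurableSet).imp measurable_const)))))

/-- The code given by a family of maps satisfying the axioms. -/
def toCode (p : {p : ℕ → ℕ → PreMap E // Ax p}) : Code E where
  V i j := (p.1 i j).V
  φ i j := (p.1 i j).φ
  isOpen i j := (p.1 i j).isOpen
  sub := p.2.sub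
  refl := p.2.refl
  cocycle := p.2.cocycle
  cont i j := (p.1 i j).cont
  off i j := (p.1 i j).off
  haus := p.2.haus

omit [FiniteDimensional ℝ E] in
theorem toCode_meas : Measurable (toCode : {p : ℕ → ℕ → PreMap E // Ax p} → Code E) := by
  have hp0 : ∀ i j, Measurable (fun p : ℕ → ℕ → PreMap E => p i j) := fun i j =>
    (measurable_pi_apply j).comp (measurable_pi_apply i)
  have hp : ∀ i j, Measurable (fun p : {p : ℕ → ℕ → PreMap E // Ax p} => p.1 i j) := fun i j =>
    (hp0 i j).comp measurable_subtype_coe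
  refine measurable_generateFrom ?_
  rintro A (⟨i, j, S, hS, rfl⟩ | ⟨i, j, x, B, hB, rfl⟩)
  · exact hp i j (pm_compact hS)
  · exact hp i j (pm_val x hB)

omit [FiniteDimensional ℝ E] in
theorem toCode_inj : Function.Injective (toCode : {p : ℕ → ℕ → PreMap E // Ax p} → Code E) := by
  intro p q h
  apply Subtype.ext
  funext i j
  have h1 : (p.1 i j).V = (q.1 i j).V := congrArg (fun c : Code E => c.V i j) h
  have h2 : (p.1 i j).φ = (q.1 i j).φ := congrArg (fun c : Code E => c.φ i j) h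
  exact PreMap.ext' h1 fun x _ => by rw [h2]

omit [FiniteDimensional ℝ E] in
theorem toCode_surj : Function.Surjective (toCode : {p : ℕ → ℕ → PreMap E // Ax p} → Code E) := by
  intro c
  exact ⟨⟨fun i j => ⟨c.V i j, c.φ i j, c.isOpen i j, c.cont i j, c.off i j⟩,
    ⟨c.sub, c.refl, c.cocycle, c.haus⟩⟩, rfl⟩

instance : MeasurableSpace.CountablySeparated (Code E) := by
  refine ⟨⟨range (fun b : ℕ × ℕ × (ℕ × ℕ × ℕ) => {c : Code E | (cb b.2.2 : Set E) ⊆ c.V b.1 b.2.1}) ∪
    range (fun b : ℕ × ℕ × ℕ × (ℕ × ℕ × ℕ) =>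
      {c : Code E | c.φ b.1 b.2.1 (D E b.2.2.1) ∈ (ob b.2.2.2 : Set E)}),
    (countable_range _).union (countable_range _), ?_, ?_⟩⟩
  · rintro A (⟨b, rfl⟩ | ⟨b, rfl⟩)
    · exact meas_compact _ _ (cb_compact _)
    · exact meas_val _ _ _ (ob_open _).measurableSet
  · intro c _ c' _ h
    obtain ⟨p, rfl⟩ := toCode_surj c
    obtain ⟨q, rfl⟩ := toCode_surj c'
    congr 1
    apply Subtype.ext
    funext i j
    refine pm_sep ?_ ?_
    · intro b
      exact h _ (Or.inl ⟨(i, j, b), rfl⟩)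
    · intro n b
      exact h _ (Or.inr ⟨(i, j, n, b), rfl⟩)

/-- The space of codes is a standard Borel space. -/
instance sb_code : StandardBorelSpace (Code E) := by
  have : StandardBorelSpace {p : ℕ → ℕ → PreMap E // Ax p} := (ax_meas (E := E)).standardBorel
  exact sb_of_bij toCode_meas toCode_inj toCode_surj

end Pool.Agent.H655.SB
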